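import Mathlib

set_option autoImplicit false

/-!
# Free products of R* groups: permutations with labels (definitions)

`π : Perm X` with labels `ℓ : X → K` in a group. The cycle of `x` is trivial if the product
`ℓ x * ℓ (π x) * ⋯` of the labels once around the cycle is `1`; this is expressed by a potential `f`.
`tr π ℓ` is the number of trivial cycles, `cyc π` the number of all cycles (fixed points included).

A system is a finite set `Ω` with a permutation `S` (the faces; the face of `x` has the corners
`a x, b x, a (S x), b (S x), …`). A permutation `τ` glues the side between `a x` and `b x` with the side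
between `b (τ x)` and `a (S (τ x))`. Then the vertices of the first kind are the cycles of `S * τ` with the
labels `a`, those of the second kind are the cycles of `τ⁻¹` with the labels `b`.
-/

namespace Pool.Agent.H417.RS

open Equiv

section
variable {X K : Type} [Group K]

/-- the cycle of `x` -/
def orb (π : Perm X) (x : X) : Set X := {y | π.SameCycle x y}

/-- the product of the labels along the cycle of `x` is `1` -/
def Triv (π : Perm X) (ℓ : X → K) (x : X) : Prop :=
  ∃ f : X → K, ∀ y, π.SameCycle x y → f (π y) = f y * ℓ y

/-- the set of the trivial cycles -/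
def trs (π : Perm X) (ℓ : X → K) : Set (Set X) := {C | ∃ x, C = orb π x ∧ Triv π ℓ x}

/-- the number of the trivial cycles -/
noncomputable def tr (π : Perm X) (ℓ : X → K) : ℕ := (trs π ℓ).ncard

end

/-- the number of the cycles -/
noncomputable def cyc {X : Type} (π : Perm X) : ℕ := {C : Set X | ∃ x, C = orb π x}.ncard

section
variable {A B : Type} [Group A] [Group B]

/-- a system is good if for some gluing `#(trivial vertices) - #(edges) + #(faces)` is at least `2` -/
def Good {Ω : Type} (S : Perm Ω) (a : Ω → A) (b : Ω → B) : Prop :=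
  ∃ τ : Perm Ω, (2 : ℤ) ≤ (tr (S * τ) a : ℤ) + (tr τ⁻¹ b : ℤ) - (Nat.card Ω : ℤ) + (cyc S : ℤ)

/-- the letters of a polygon -/
def la (w : List (A × B)) (i : Fin w.length) : A := (w.get i).1
def lb (w : List (A × B)) (i : Fin w.length) : B := (w.get i).2

/-- a polygon with boundary word `w` together with a system `(Ω, S, a, b)` is good -/
def PG (w : List (A × B)) {Ω : Type} (S : Perm Ω) (a : Ω → A) (b : Ω → B) : Prop :=
  Good (Equiv.sumCongr (finRotate w.length) S) (Sum.elim (la w) a) (Sum.elim (lb w) b)

/-- the inverse word: `(a b)⁻¹ = (1 b⁻¹) (a⁻¹ 1)` -/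
def invl : List (A × B) → List (A × B)
  | [] => []
  | p :: w => invl w ++ [(1, p.2⁻¹), (p.1⁻¹, 1)]

/-- `(Ω, S, a, b)` consists of faces with boundary word a power of the word `(c 0, d 0), …, (c (k-1), d (k-1))` -/
def Faces (k : ℕ) (c : ZMod k → A) (d : ZMod k → B) {Ω : Type} (S : Perm Ω) (a : Ω → A) (b : Ω → B) : Prop :=
  ∃ i : Ω → ZMod k, (∀ x, i (S x) = i x + 1) ∧ (∀ x, a x = c (i x)) ∧ ∀ x, b x = d (i x)

end

/-- no nonempty product of conjugates of a nontrivial element is trivial -/
def RStar (G : Type) [Group G] : Prop :=
  ∀ g : G, g ≠ 1 → ∀ l : List G, l ≠ [] → (l.map (fun x => x * g * x⁻¹)).prod ≠ 1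

/-- torsion-free -/
def TF (G : Type) [Group G] : Prop := ∀ (g : G) (n : ℕ), 0 < n → g ^ n = 1 → g = 1

/-- the value of a word in the free product of `G false` and `G true` -/
def val {G : Bool → Type} [∀ s, Group (G s)] (w : List (G false × G true)) : Monoid.CoprodI G :=
  (w.map (fun p => (Monoid.CoprodI.of p.1 : Monoid.CoprodI G) * Monoid.CoprodI.of p.2)).prod

end Pool.Agent.H417.RS
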