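import Pool.Agent.H417.RS.Defs

set_option autoImplicit false

/-!
# Free products of R* groups: statements
-/

namespace Pool.Agent.H417.RS

open Equiv

/-! ## A. Trivial cycles -/

/-- (SWAP) multiplication by a transposition destroys at most one trivial cycle -/
def S_SWAP : Prop :=
  ∀ (X K : Type) [Finite X] [DecidableEq X] [Group K] (π : Perm X) (ℓ : X → K) (p q : X),
    tr π ℓ ≤ tr (Equiv.swap p q * π) ℓ + 1

/-- (CONJ) transport along a bijection -/
def S_CONJ : Prop :=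
  ∀ (X Y K : Type) [Group K] (e : X ≃ Y) (π : Perm X) (ρ : Perm Y) (ℓ : X → K) (m : Y → K),
    (∀ x, ρ (e x) = e (π x)) → (∀ x, m (e x) = ℓ x) → tr ρ m = tr π ℓ

/-- (CYCI) the same for `cyc` -/
def S_CYCI : Prop :=
  ∀ (X Y : Type) (e : X ≃ Y) (π : Perm X) (ρ : Perm Y), (∀ x, ρ (e x) = e (π x)) → cyc ρ = cyc π

/-- (SPL) removing the point `none`, its label is merged with that of the next point -/
def S_SPL : Prop :=
  ∀ (X K : Type) [Finite X] [DecidableEq X] [Group K] (π : Perm (Option X)) (ℓ : Option X → K) (z : X),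
    π none = some z →
    tr (removeNone π) (fun x => if x = z then ℓ none * ℓ (some x) else ℓ (some x)) = tr π ℓ

/-- (SPLB) removing the point `none`, its label is merged with that of the previous point -/
def S_SPLB : Prop :=
  ∀ (X K : Type) [Finite X] [DecidableEq X] [Group K] (π : Perm (Option X)) (ℓ : Option X → K) (y : X),
    π (some y) = none →
    tr (removeNone π) (fun x => if x = y then ℓ (some x) * ℓ none else ℓ (some x)) = tr π ℓ

/-- (FIX) removing a fixed point with trivial label -/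
def S_FIX : Prop :=
  ∀ (X K : Type) [Finite X] [Group K] (π : Perm (Option X)) (ℓ : Option X → K),
    π none = none → ℓ none = 1 → tr π ℓ = tr (removeNone π) (fun x => ℓ (some x)) + 1

/-- (RN) identities for `removeNone` -/
def S_RN : Prop :=
  ∀ (X : Type) [DecidableEq X] (S τ : Perm (Option X)),
    (S none ≠ none →
      (removeNone S * removeNone τ : Perm X) =
        removeNone (Equiv.swap (S none) (S (τ none)) * (S * τ) : Perm (Option X))) ∧
    (S none = none → (removeNone S * removeNone τ : Perm X) = removeNone (S * τ : Perm (Option X))) ∧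
    (removeNone τ⁻¹ = (removeNone τ : Perm X)⁻¹) ∧
    (∀ σ : Perm X, removeNone (optionCongr σ) = σ)

/-- (CYCN) removing a point that is not fixed does not change the number of cycles -/
def S_CYCN : Prop :=
  ∀ (X : Type) [Finite X] (S : Perm (Option X)), S none ≠ none → cyc (removeNone S) = cyc S

/-- (CYCS) cycles of a disjoint union -/
def S_CYCS : Prop :=
  ∀ (X Y : Type) [Finite X] [Finite Y] (S : Perm X) (T : Perm Y), cyc (Equiv.sumCongr S T) = cyc S + cyc T

/-- (CYCR) the rotation has one cycle -/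
def S_CYCR : Prop := ∀ n : ℕ, cyc (finRotate (n + 1)) = 1

/-! ## B. Good systems -/

/-- (ISO) isomorphic systems -/
def S_ISO : Prop :=
  ∀ (A B Ω Ω' : Type) [Group A] [Group B] (e : Ω ≃ Ω') (S : Perm Ω) (S' : Perm Ω') (a : Ω → A) (b : Ω → B)
    (a' : Ω' → A) (b' : Ω' → B), (∀ x, S' (e x) = e (S x)) → (∀ x, a' (e x) = a x) → (∀ x, b' (e x) = b x) →
    Good S a b → Good S' a' b'

/-- (SPURB) a corner of the second kind with trivial label -/
def S_SPURB : Prop :=
  ∀ (A B Ω : Type) [Group A] [Group B] [Finite Ω] [DecidableEq Ω] (S : Perm (Option Ω)) (a : Option Ω → A)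
    (b : Option Ω → B) (z : Ω), S none = some z → b none = 1 →
    (Good S a b ↔ Good (removeNone S) (fun x => if x = z then a none * a (some x) else a (some x))
      (fun x => b (some x)))

/-- (SPURA) a corner of the first kind with trivial label -/
def S_SPURA : Prop :=
  ∀ (A B Ω : Type) [Group A] [Group B] [Finite Ω] [DecidableEq Ω] (S : Perm (Option Ω)) (a : Option Ω → A)
    (b : Option Ω → B) (y : Ω), S (some y) = none → a none = 1 →
    (Good S a b ↔ Good (removeNone S) (fun x => a (some x))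
      (fun x => if x = y then b (some x) * b none else b (some x)))

/-- (SPLIT) splitting a face -/
def S_SPLIT : Prop :=
  ∀ (A B Ω : Type) [Group A] [Group B] [Finite Ω] [DecidableEq Ω] (S : Perm Ω) (a : Ω → A) (b : Ω → B) (p q : Ω),
    cyc (S * Equiv.swap p q) = cyc S + 1 → Good S a b → Good (S * Equiv.swap p q) a b

/-! ## C. Polygons -/

/-- (L1) rotation of the word of a polygon -/
def S_L1 : Prop :=
  ∀ (A B Ω : Type) [Group A] [Group B] [Finite Ω] (w₁ w₂ : List (A × B)) (S : Perm Ω) (a : Ω → A) (b : Ω → B),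
    PG (w₁ ++ w₂) S a b → PG (w₂ ++ w₁) S a b

/-- (L2) -/
def S_L2 : Prop :=
  ∀ (A B Ω : Type) [Group A] [Group B] [Finite Ω] (a₁ a₂ : A) (b₂ : B) (w : List (A × B)) (S : Perm Ω)
    (a : Ω → A) (b : Ω → B), PG ((a₁, 1) :: (a₂, b₂) :: w) S a b ↔ PG ((a₁ * a₂, b₂) :: w) S a b

/-- (L3) -/
def S_L3 : Prop :=
  ∀ (A B Ω : Type) [Group A] [Group B] [Finite Ω] (a₁ : A) (b₁ b₂ : B) (w : List (A × B)) (S : Perm Ω)
    (a : Ω → A) (b : Ω → B), PG ((a₁, b₁) :: (1, b₂) :: w) S a b ↔ PG ((a₁, b₁ * b₂) :: w) S a b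

/-- (L4) a polygon is split into two polygons -/
def S_L4 : Prop :=
  ∀ (A B Ω : Type) [Group A] [Group B] [Finite Ω] (w₁ w₂ : List (A × B)) (S : Perm Ω) (a : Ω → A) (b : Ω → B),
    w₁ ≠ [] → w₂ ≠ [] → PG (w₁ ++ w₂) S a b →
    PG w₂ (Equiv.sumCongr (finRotate w₁.length) S) (Sum.elim (la w₁) a) (Sum.elim (lb w₁) b)

/-- (L5) exchange of two polygons -/
def S_L5 : Prop :=
  ∀ (A B Ω : Type) [Group A] [Group B] [Finite Ω] (w₁ w₂ : List (A × B)) (S : Perm Ω) (a : Ω → A) (b : Ω → B),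
    PG w₂ (Equiv.sumCongr (finRotate w₁.length) S) (Sum.elim (la w₁) a) (Sum.elim (lb w₁) b) →
    PG w₁ (Equiv.sumCongr (finRotate w₂.length) S) (Sum.elim (la w₂) a) (Sum.elim (lb w₂) b)

/-- (L6) conjugation of the word of a polygon -/
def S_L6 : Prop :=
  ∀ (A B Ω : Type) [Group A] [Group B] [Finite Ω] (u v : List (A × B)) (S : Perm Ω) (a : Ω → A) (b : Ω → B),
    v ≠ [] → PG (u ++ (v ++ invl u)) S a b → PG v S a b

/-- (L0) words with value `1` -/
def S_L0 : Prop :=
  ∀ (G : Bool → Type) [∀ s, Group (G s)] (w : List (G false × G true)), w ≠ [] → val w = 1 →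
    PG w (1 : Perm Empty) (fun x => x.elim) (fun x => x.elim)

/-! ## D. Faces with the same word -/

/-- (W) -/
def S_W : Prop :=
  ∀ (X K : Type) [Fintype X] [Group K] (k : ℕ) [NeZero k] (i : X → ZMod k) (c : ZMod k → K) (π : Perm X),
    (∀ j, ∀ m : ℕ, 0 < m → c j ^ m ≠ 1) →
    k * tr π (fun x => c (i x)) ≤ ∑ x, (i x - i (π x)).val

/-- (CYCK) -/
def S_CYCK : Prop :=
  ∀ (X : Type) [Finite X] (k : ℕ) [NeZero k] (i : X → ZMod k) (S : Perm X), (∀ x, i (S x) = i x + 1) →
    k * cyc S ≤ Nat.card X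

/-- (NOGOOD) -/
def S_NOGOOD : Prop :=
  ∀ (A B Ω : Type) [Group A] [Group B] [Finite Ω] (k : ℕ) [NeZero k] (c : ZMod k → A) (d : ZMod k → B)
    (S : Perm Ω) (a : Ω → A) (b : Ω → B), Faces k c d S a b →
    (∀ j, ∀ m : ℕ, 0 < m → c j ^ m ≠ 1) → (∀ j, ∀ m : ℕ, 0 < m → d j ^ m ≠ 1) → ¬ Good S a b

/-- (ABS) a polygon whose word is the word of the faces is one more face -/
def S_ABS : Prop :=
  ∀ (A B : Type) [Group A] [Group B] (g : List (A × B)), g ≠ [] →
    ∃ (k : ℕ) (_ : NeZero k) (c : ZMod k → A) (d : ZMod k → B), (∀ j, (c j, d j) ∈ g) ∧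
      ∀ (Ω : Type) (S : Perm Ω) (a : Ω → A) (b : Ω → B), Faces k c d S a b →
        Faces k c d (Equiv.sumCongr (finRotate g.length) S) (Sum.elim (la g) a) (Sum.elim (lb g) b)

/-! ## E. Free products -/

/-- (N1) -/
def S_N1 : Prop :=
  ∀ (G : Bool → Type) [∀ s, Group (G s)] (x : Monoid.CoprodI G), ∃ u : List (G false × G true), val u = x

/-- (N2) -/
def S_N2 : Prop :=
  ∀ (G : Bool → Type) [∀ s, Group (G s)] (w : List (G false × G true)), w ≠ [] →
    (∀ p ∈ w, p.1 ≠ 1 ∧ p.2 ≠ 1) → val w ≠ 1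

/-- (N3) -/
def S_N3 : Prop :=
  ∀ (G : Bool → Type) [∀ s, Group (G s)] (x : Monoid.CoprodI G),
    (∃ (s : Bool) (g : G s) (c : Monoid.CoprodI G), x = c * Monoid.CoprodI.of g * c⁻¹) ∨
    ∃ (w : List (G false × G true)) (c : Monoid.CoprodI G), w ≠ [] ∧ (∀ p ∈ w, p.1 ≠ 1 ∧ p.2 ≠ 1) ∧
      x = c * val w * c⁻¹

/-- (NINV) -/
def S_NINV : Prop :=
  ∀ (G : Bool → Type) [∀ s, Group (G s)] (w : List (G false × G true)), val (invl w) = (val w)⁻¹

/-- (T2) torsion-free factors -/
def S_T2 : Prop :=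
  ∀ (G : Bool → Type) [∀ s, Group (G s)], (∀ s, TF (G s)) → ∀ w : List (G false × G true), w ≠ [] →
    (∀ p ∈ w, p.1 ≠ 1 ∧ p.2 ≠ 1) → ∀ l : List (Monoid.CoprodI G), l ≠ [] →
      (l.map (fun h => h * val w * h⁻¹)).prod ≠ 1

/-- (T3) two R* factors -/
def S_T3 : Prop :=
  ∀ (G : Bool → Type) [∀ s, Group (G s)], (∀ s, RStar (G s)) → RStar (Monoid.CoprodI G)

/-- (T4) finitely many R* factors -/
def S_T4 : Prop :=
  ∀ (ι : Type) [Finite ι] (G : ι → Type) [∀ i, Group (G i)], (∀ i, RStar (G i)) → RStar (Monoid.CoprodI G)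

/-- (T5) reduction to finitely many factors -/
def S_T5 : Prop :=
  ∀ (ι : Type) (G : ι → Type) [∀ i, Group (G i)],
    (∀ s : Finset ι, RStar (Monoid.CoprodI (fun i : s => G i))) → RStar (Monoid.CoprodI G)

end Pool.Agent.H417.RS
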